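import Pool.Agent.LPK.Stmts

/-!
# Squad LPV (MP_37fa12_co): certificates with the half width block

The same setting as `Pool.Agent.LPK`: Gaussian `e^(-|x|²/2)`, covolume `κ (2π)^(n/2)`, dual lattice
`⟨x,u⟩ ∈ 2πℤ`.  New: squares of class sums of functions with the Gaussian `e^(-|x|²/4)`, and the kernels of
degree `l` (Gegenbauer).
-/

set_option autoImplicit false

noncomputable section

open MeasureTheory Filter Topology
open scoped RealInnerProductSpace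

namespace Pool.Agent.LPV

open Pool.Agent.LPK

/-- kernel of degree `l`: `∑_j z_j (A B)^j H^(l - 2j)` -/
def zk (l : ℕ) (z : List ℤ) (A B H : ℝ) : ℝ :=
  ∑ j ∈ Finset.range (l / 2 + 1), ((z.getD j 0 : ℤ) : ℝ) * (A * B) ^ j * H ^ (l - 2 * j)

/-- the polynomial `z ↦ zk l z |x|² |z|² ⟨x,z⟩` is harmonic in `ℝ^n`, the leading coefficient is `≥ 0` -/
def Hz (n l : ℕ) (z : List ℤ) : Prop := l % 2 = 0 ∧ 0 ≤ z.getD 0 0 ∧ ∀ j : ℕ, j < l / 2 →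
  z.getD (j + 1) 0 * (2 * ((j : ℤ) + 1) * ((n : ℤ) + 2 * l - 2 * j - 4)) +
    z.getD j 0 * (((l : ℤ) - 2 * j) * ((l : ℤ) - 2 * j - 1)) = 0

/-- function of one vector, half width -/
def WH {n : ℕ} (s : List ℤ) (x : V n) : ℝ := e1 s (‖x‖ ^ 2) * Real.exp (-‖x‖ ^ 2 / 4)

/-- the polynomial `s(2A)` in the form `P3` -/
def dbl (s : List ℤ) : P3 := (List.range s.length).map fun i => (s.getD i 0 * 2 ^ i, i, 0, 0)

/-- the data of a certificate.  `P`, `Q`: pairs of vectors of the lattice and of the dual lattice,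
`g` (only powers of `A`): one vector.  `w`: squares of class sums `(d, α, β, s)`.  `ps`: squares
`(d, α, s)`.  `pl`: kernels `(l, z, list of (d, s))`.  `wl`: squares of class sums of degree `l`,
`(l, z, list of (d, s))`. -/
structure DW where
  P : P3
  Q : P3
  g : P3
  w : List (ℕ × ℤ × ℤ × List ℤ)
  ps : List (ℕ × ℤ × List ℤ)
  pl : List (ℕ × List ℤ × List (ℕ × List ℤ))
  wl : List (ℕ × List ℤ × List (ℕ × List ℤ))

variable (n : ℕ) (κ : ℝ) (D : DW)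

/-- kernel of the half width squares -/
def DW.KW (A B H : ℝ) : ℝ :=
  (D.w.map fun d => (d.1 : ℝ) * (e1 d.2.2.2 (A + B + 2 * H) * e1 d.2.2.2 (A + B - 2 * H))).sum
/-- kernel of the half width squares of degree `l` -/
def DW.KL (A B H : ℝ) : ℝ :=
  (D.wl.map fun d => K2 d.2.2 (A + B + 2 * H) (A + B - 2 * H) *
    zk d.1 d.2.1 (A + B + 2 * H) (A + B - 2 * H) (A - B)).sum
/-- kernel of the squares, with the kernels of degree `l` -/
def DW.K (A B H : ℝ) : ℝ := K2 (D.ps.map fun d => (d.1, d.2.2)) A B +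
  (D.pl.map fun d => K2 d.2.2 A B * zk d.1 d.2.1 A B H).sum
/-- `∑ d α s(4A)` -/
def DW.wa (A : ℝ) : ℝ := (D.w.map fun d => (d.1 : ℝ) * (d.2.1 * e1 d.2.2.2 (4 * A))).sum
/-- `∑ d β ŝ(2A)` -/
def DW.wb (A : ℝ) : ℝ :=
  (D.w.map fun d => (d.1 : ℝ) * (d.2.2.1 * e3 (T3 n (dbl d.2.2.2)) (2 * A) 0 0)).sum
/-- constants of the half width squares -/
def DW.c0 : ℝ := (D.w.map fun d => (d.1 : ℝ) *
  ((d.2.1 : ℝ) ^ 2 + 2 * d.2.1 * d.2.2.1 * rr n + (d.2.2.1 : ℝ) ^ 2)).sum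

/-- pairs of the lattice -/
def DW.LL (A B H : ℝ) : ℝ := e3 D.P A B H + D.K A B H + D.KW A B H + D.KL A B H
/-- pairs of the dual lattice -/
def DW.SS (A B H : ℝ) : ℝ := e3 D.Q A B H
/-- mixed pairs: `A` norm of the vector of the lattice, `B` norm of the dual vector -/
def DW.LS (A B H : ℝ) : ℝ := -(κ⁻¹ * e3 (T3 n D.P) B A H) - κ * e3 (T3 n D.Q) A B H
/-- one vector of the lattice -/
def DW.f1 (A : ℝ) : ℝ := e3 D.g A 0 0 + 2 * bo D.ps A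
/-- one vector of the dual lattice -/
def DW.f1' (A : ℝ) : ℝ := -(κ⁻¹ * e3 (T3 n D.g) A 0 0)
/-- everything at the zero vectors -/
def DW.cst : ℝ := D.LL 0 0 0 + D.SS 0 0 0 + D.LS n κ 0 0 0 + D.f1 0 + D.f1' n κ 0 +
  2 * D.wa 0 + 2 * (κ⁻¹ * D.wb n 0) + D.c0 n + bc D.ps
/-- the part of a line with the factor `e^(-a/2)` -/
def DW.E1 (a : ℝ) : ℝ := D.LL a 0 0 + D.LL 0 a 0 + D.LS n κ a 0 0 + D.f1 a
/-- the part of a line with the factor `e^(-a)` -/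
def DW.E2 (a : ℝ) : ℝ := 2 * D.LL a a a + 2 * D.wa a
/-- the same for the dual lattice -/
def DW.E1' (a : ℝ) : ℝ := D.SS a 0 0 + D.SS 0 a 0 + D.LS n κ 0 a 0 + D.f1' n κ a
/-- the same for the dual lattice -/
def DW.E2' (a : ℝ) : ℝ := 2 * D.SS a a a + 2 * (κ⁻¹ * D.wb n a)

/-- A certificate: no lattice in `ℝ^n` of covolume `κ (2π)^(n/2)` with the norms of the nonzero
vectors at least `μ` (and `ν` in the dual lattice) exists. -/
structure CertW (μ ν : ℝ) : Prop where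
  ev : Even n
  one : 2 ≤ n
  kap : 0 < κ
  pos : 0 < μ
  nng : 0 ≤ ν
  evP : Ev D.P
  evQ : Ev D.Q
  evg : ∀ t ∈ D.g, t.2.2.1 = 0 ∧ t.2.2.2 = 0
  hz : ∀ d ∈ D.pl, Hz n d.1 d.2.1
  hw : ∀ d ∈ D.wl, Hz n d.1 d.2.1
  cst : D.cst n κ < 0
  ll : ∀ A B H : ℝ, μ ≤ A → μ ≤ B → 0 ≤ H → μ ≤ A + B - 2 * H → H ^ 2 ≤ A * B →
    D.LL A B H + D.LL B A H ≤ 0
  ss : ∀ A B H : ℝ, ν ≤ A → ν ≤ B → 0 ≤ H → ν ≤ A + B - 2 * H → H ^ 2 ≤ A * B →
    D.SS A B H + D.SS B A H ≤ 0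
  mx : ∀ (A B : ℝ) (k : ℕ), μ ≤ A → ν ≤ B → (2 * Real.pi * k) ^ 2 ≤ A * B →
    D.LS n κ A B (2 * Real.pi * k) ≤ 0
  l1 : ∀ a : ℝ, μ ≤ a → D.E1 n κ a + Real.exp (-a / 2) * D.E2 a ≤ 0
  l3 : ∀ a : ℝ, ν ≤ a → D.E1' n κ a + Real.exp (-a / 2) * D.E2' n κ a ≤ 0

end Pool.Agent.LPV
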