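import Pool.Agent.LPV.Defs

/-!
# Squad LPV (MP_37fa12_co): statements

All rows of `Pool.Agent.LPK` are proved; the names `EvaStmt`, `SumStmt`, ... are those of
`Pool.Agent.LPK.Stmts`.  Here: the version with the half width block and the kernels of degree `l`.

Every row: file `Pool/Agent/HelperNN_LPV/XXX.lean`, import `Pool.Agent.LPV.Stmts`, namespace
`Pool.Agent.LPV.HNN`, theorem `xxx (hypotheses = rows in uses, in this order) : XxxStmt`.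
-/

set_option autoImplicit false

noncomputable section

open MeasureTheory Filter Topology
open scoped RealInnerProductSpace

namespace Pool.Agent.LPV

open Pool.Agent.LPK

/-- **FIS** (uses nothing).  The Fischer product, pure algebra.
PROOF.  For `p, q : MvPolynomial (Fin n) ℝ` let `⟨p,q⟩ = ∑_m m! p_m q_m` (`m : Fin n →₀ ℕ`, `m! = ∏ (m i)!`).
(a) `⟨X_i p, q⟩ = ⟨p, ∂_i q⟩` (coefficients: `(X_i p)_m = p_(m - e_i)`, `(∂_i q)_m = (m_i + 1) q_(m + e_i)`).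
(b) For a vector `x` let `λ_x = ∑ x_i X_i`, `D_x = ∑ x_i ∂_i`, `ρ = ∑ X_i²`, `Δ = ∑ ∂_i²`: `⟨λ_x p, q⟩ = ⟨p, D_x q⟩`,
`⟨ρ p, q⟩ = ⟨p, Δ q⟩`.  (c) `h_x = ∑_j z_j |x|^(2j) ρ^j λ_x^(l-2j)` is harmonic: `Δ(ρ^j λ_x^k) = 2j(2j - 2 + n + 2k) ρ^(j-1) λ_x^k
+ k(k-1) |x|² ρ^j λ_x^(k-2)` and the recursion `Hz`.  (d) `⟨λ_x^l, q⟩ = l! q(x)` for `q` homogeneous of degree `l`
(by (b), `D_x^l q = l! q(x)`: `D_x (q)` at ... Euler; or directly on monomials by the multinomial theorem).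
(e) `⟨h_x, h_y⟩ = z_0 ⟨λ_x^l, h_y⟩ = z_0 l! h_y(x)`, and `h_y(x) = zk l z |y|² |x|² ⟨y,x⟩`.  So for `z_0 > 0`
`zk = ∑_m (m!/(z_0 l!)) (h_x)_m (h_y)_m` over the monomials of degree `l`; for `z_0 = 0` all `z_j = 0`
(`2l - 2j - 4 + n > 0` for `j < l/2`, if `n ≥ 2`), so `zk = 0`.  Bound: `|(h_x)_m| ≤ C (1 + |x|²)^l` (a polynomial in
the coordinates of `x` of degree `l`; or: `φ_i(x)² ≤ zk l z |x|² |x|² |x|² = c |x|^(2l)`: the simplest). -/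
def FisStmt : Prop := ∀ (n l : ℕ) (z : List ℤ), 2 ≤ n → Hz n l z → ∃ (N : ℕ) (φ : Fin N → V n → ℝ) (C : ℝ),
  (∀ i x, |φ i x| ≤ C * (1 + ‖x‖ ^ 2) ^ l) ∧
  ∀ x y : V n, zk l z (‖x‖ ^ 2) (‖y‖ ^ 2) ⟪x, y⟫ = ∑ i, φ i x * φ i y

/-- **GF4** (uses nothing).  `FisStmt` for `l ≤ 4` only, by tensors (safe alternative).
PROOF.  `l = 0`: constant; `l = 2`: `z_0 (⟨x,y⟩² - |x|²|y|²/n) = z_0 ∑_ij (x_i x_j - [i=j]|x|²/n)(y_i y_j - [i=j]|y|²/n)`.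
`l = 4`: `α = 1/(n+4)`, `β = 1/((n+2)(n+4))`, `T(x)_ijkm = x_i x_j x_k x_m - α |x|² (δ_ij x_k x_m + 5 more) + β |x|⁴ (δ_ij δ_km + 2
more)`; traceless, so `∑ T(x) T(y) = ∑ x_i x_j x_k x_m T(y)_ijkm = ⟨x,y⟩⁴ - 6 α |x|²|y|²⟨x,y⟩² + 3 β |x|⁴|y|⁴`. -/
def Gf4Stmt : Prop := ∀ (n l : ℕ) (z : List ℤ), 2 ≤ n → l ≤ 4 → Hz n l z →
  ∃ (N : ℕ) (φ : Fin N → V n → ℝ) (C : ℝ),
    (∀ i x, |φ i x| ≤ C * (1 + ‖x‖ ^ 2) ^ l) ∧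
    ∀ x y : V n, zk l z (‖x‖ ^ 2) (‖y‖ ^ 2) ⟪x, y⟫ = ∑ i, φ i x * φ i y

/-- **PSG** (uses SUM, FIS).  Kernels of degree `l`.
PROOF.  `∑ over pairs of s(x) s(y) zk = ∑_i (∑_x s(x) φ_i(x))²`; summability of `s(x) φ_i(x)`: `|φ_i| ≤ C (1+‖x‖²)^l`,
SUM with the list of `s(A) (1+A)^l` (or with a bound `|e1 s A| ≤ C' (1+A)^m` and the list of `(1+A)^(m+l)`). -/
def PsgStmt : Prop := ∀ (n : ℕ) (κ : ℝ) (b b' : Fin n → V n), 2 ≤ n → Du κ b b' → ∀ (l : ℕ) (z : List ℤ),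
  Hz n l z → ∀ s : List ℤ,
  (Summable fun a : Z2 n => W1 s (pt b a.1) * W1 s (pt b a.2) *
    zk l z (‖pt b a.1‖ ^ 2) (‖pt b a.2‖ ^ 2) ⟪pt b a.1, pt b a.2⟫) ∧
  0 ≤ ∑' a : Z2 n, W1 s (pt b a.1) * W1 s (pt b a.2) *
    zk l z (‖pt b a.1‖ ^ 2) (‖pt b a.2‖ ^ 2) ⟪pt b a.1, pt b a.2⟫

/-- **WSQ** (uses DUA, SUM).  Squares of class sums, half width.
PROOF.  `S(c) = ∑_(a mod 2 = c) WH s (x_a)`, `0 ≤ ∑_c (α [c=0] + β r + S c)²`, `r = rr n`, `r² 2^n = 1` (`n` even).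
`∑_c S c² = ∑` over the pairs `(a, a')` congruent modulo 2 `= ∑_(u,w) WH s (x_(u+w)) WH s (x_(u-w))` (bijection
`(u,w) ↦ (u+w, u-w)` of `Z2 n` onto the congruent pairs), `‖x_u ± x_w‖² = A + B ± 2H`, sum `2(A+B)`, so the
Gaussians give `e^(-(A+B)/2) = G G`. -/
def WsqStmt : Prop := ∀ (n : ℕ), Even n → ∀ (κ : ℝ) (b b' : Fin n → V n), Du κ b b' →
  ∀ (α β : ℝ) (s : List ℤ),
  (Summable fun a : Fin n → ℤ => WH s (pt b a)) ∧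
  (Summable fun a : Fin n → ℤ => WH s ((2 : ℝ) • pt b a)) ∧
  (Summable fun a : Z2 n => e1 s (‖pt b a.1‖ ^ 2 + ‖pt b a.2‖ ^ 2 + 2 * ⟪pt b a.1, pt b a.2⟫) *
    e1 s (‖pt b a.1‖ ^ 2 + ‖pt b a.2‖ ^ 2 - 2 * ⟪pt b a.1, pt b a.2⟫) * (G (pt b a.1) * G (pt b a.2))) ∧
  0 ≤ α ^ 2 + 2 * α * β * rr n + β ^ 2 +
    2 * α * (∑' a : Fin n → ℤ, WH s ((2 : ℝ) • pt b a)) +
    2 * β * (rr n * ∑' a : Fin n → ℤ, WH s (pt b a)) +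
    ∑' a : Z2 n, e1 s (‖pt b a.1‖ ^ 2 + ‖pt b a.2‖ ^ 2 + 2 * ⟪pt b a.1, pt b a.2⟫) *
      e1 s (‖pt b a.1‖ ^ 2 + ‖pt b a.2‖ ^ 2 - 2 * ⟪pt b a.1, pt b a.2⟫) *
      (G (pt b a.1) * G (pt b a.2))

/-- **WSL** (uses DUA, SUM, FIS).  Squares of class sums of degree `l`, half width.
PROOF.  `0 ≤ ∑_i ∑_c (∑_(a mod 2 = c) WH s (x_a) φ_i(x_a))²` (FIS), `∑_i φ_i(x) φ_i(x') = zk l z (|x|²) (|x'|²) ⟨x,x'⟩`, with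
`x = u + w`, `x' = u - w`: `|x|² = A + B + 2H`, `|x'|² = A + B - 2H`, `⟨x,x'⟩ = A - B` (as WSQ). -/
def WslStmt : Prop := ∀ (n : ℕ) (κ : ℝ) (b b' : Fin n → V n), 2 ≤ n → Du κ b b' → ∀ (l : ℕ) (z : List ℤ),
  Hz n l z → ∀ s : List ℤ,
  (Summable fun a : Z2 n => e1 s (‖pt b a.1‖ ^ 2 + ‖pt b a.2‖ ^ 2 + 2 * ⟪pt b a.1, pt b a.2⟫) *
    e1 s (‖pt b a.1‖ ^ 2 + ‖pt b a.2‖ ^ 2 - 2 * ⟪pt b a.1, pt b a.2⟫) *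
    zk l z (‖pt b a.1‖ ^ 2 + ‖pt b a.2‖ ^ 2 + 2 * ⟪pt b a.1, pt b a.2⟫)
      (‖pt b a.1‖ ^ 2 + ‖pt b a.2‖ ^ 2 - 2 * ⟪pt b a.1, pt b a.2⟫) (‖pt b a.1‖ ^ 2 - ‖pt b a.2‖ ^ 2) *
    (G (pt b a.1) * G (pt b a.2))) ∧
  0 ≤ ∑' a : Z2 n, e1 s (‖pt b a.1‖ ^ 2 + ‖pt b a.2‖ ^ 2 + 2 * ⟪pt b a.1, pt b a.2⟫) *
    e1 s (‖pt b a.1‖ ^ 2 + ‖pt b a.2‖ ^ 2 - 2 * ⟪pt b a.1, pt b a.2⟫) *
    zk l z (‖pt b a.1‖ ^ 2 + ‖pt b a.2‖ ^ 2 + 2 * ⟪pt b a.1, pt b a.2⟫)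
      (‖pt b a.1‖ ^ 2 + ‖pt b a.2‖ ^ 2 - 2 * ⟪pt b a.1, pt b a.2⟫) (‖pt b a.1‖ ^ 2 - ‖pt b a.2‖ ^ 2) *
    (G (pt b a.1) * G (pt b a.2))

/-- **WPO** (uses DUA, PLM).  Poisson summation with half width.
PROOF.  `b₂ = b/√2`, `b₂' = √2 b'`: `Du (κ 2^(-n/2)) b₂ b₂'` (`κ rr n`), PLM with `p = dbl s`, `y = 0`:
`κ rr n ∑ e1 s (2 ‖x‖²/2) e^(-‖x‖²/4) = ∑ e3 (T3 n (dbl s)) (2‖u‖²) 0 0 e^(-‖u‖²)`; `e3 (dbl s) A 0 0 = e1 s (2A)`. -/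
def WpoStmt : Prop := ∀ (n : ℕ), Even n → ∀ (κ : ℝ) (b b' : Fin n → V n), Du κ b b' → ∀ s : List ℤ,
  κ * (rr n * ∑' a : Fin n → ℤ, WH s (pt b a)) =
    ∑' c : Fin n → ℤ, e3 (T3 n (dbl s)) (2 * ‖pt b' c‖ ^ 2) 0 0 * Real.exp (-‖pt b' c‖ ^ 2)

/-- the functions of SPL for a certificate: pairs of the lattice -/
def gLL {n : ℕ} (D : DW) (b : Fin n → V n) (a : Z2 n) : ℝ :=
  D.LL (‖pt b a.1‖ ^ 2) (‖pt b a.2‖ ^ 2) ⟪pt b a.1, pt b a.2⟫ * (G (pt b a.1) * G (pt b a.2))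

/-- pairs of the dual lattice -/
def gSS {n : ℕ} (D : DW) (b' : Fin n → V n) (a : Z2 n) : ℝ :=
  D.SS (‖pt b' a.1‖ ^ 2) (‖pt b' a.2‖ ^ 2) ⟪pt b' a.1, pt b' a.2⟫ * (G (pt b' a.1) * G (pt b' a.2))

/-- mixed pairs -/
def gLS {n : ℕ} (κ : ℝ) (D : DW) (b b' : Fin n → V n) (a : Z2 n) : ℝ :=
  D.LS n κ (‖pt b a.1‖ ^ 2) (‖pt b' a.2‖ ^ 2) ⟪pt b a.1, pt b' a.2⟫ * (G (pt b a.1) * G (pt b' a.2))

/-- one vector of the lattice -/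
def gL {n : ℕ} (D : DW) (b : Fin n → V n) (a : Fin n → ℤ) : ℝ :=
  D.f1 (‖pt b a‖ ^ 2) * G (pt b a) + 2 * D.wa (‖pt b a‖ ^ 2) * Real.exp (-‖pt b a‖ ^ 2)

/-- one vector of the dual lattice -/
def gS {n : ℕ} (κ : ℝ) (D : DW) (b' : Fin n → V n) (a : Fin n → ℤ) : ℝ :=
  D.f1' n κ (‖pt b' a‖ ^ 2) * G (pt b' a) +
    2 * (κ⁻¹ * D.wb n (‖pt b' a‖ ^ 2)) * Real.exp (-‖pt b' a‖ ^ 2)

/-- **FSV** (uses DUA, SUM, PSG, WSQ, WSL).  Everything is summable.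
PROOF.  As in FSM (Helper30_LPK/FSM.lean); `e^(-A) = G G ≤ G`; `e1 s (4A)` and `e3 p (2A) 0 0` are values of integer
polynomials in `A` (`W1`); `KW` by WSQ, `KL` by WSL. -/
def FsvStmt : Prop := ∀ (n : ℕ) (κ : ℝ) (D : DW) (b b' : Fin n → V n), 2 ≤ n → Even n → Du κ b b' →
  (∀ d ∈ D.pl, Hz n d.1 d.2.1) → (∀ d ∈ D.wl, Hz n d.1 d.2.1) →
  Summable (gLL D b) ∧ Summable (gSS D b') ∧ Summable (gLS κ D b b') ∧ Summable (gL D b) ∧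
    Summable (gS κ D b')

/-- **TOV** (uses DUA, SUM, MLL, GPO, PS0, PSG, WSQ, WSL, WPO, FSV).  The total is nonnegative.
PROOF.  As in TOT (Helper39_LPK/TOT.lean), with the squares `d (α² + 2αβ r + β² + ..) ≥ 0` of WSQ, in which
`rr n ∑ WH s (x) = κ⁻¹ ∑ e3 (T3 n (dbl s)) (2‖u‖²) 0 0 e^(-‖u‖²)` by WPO, `WH s (2x) = e1 s (4‖x‖²) e^(-‖x‖²)`. -/
def TovStmt : Prop := ∀ (n : ℕ) (κ : ℝ) (D : DW) (b b' : Fin n → V n), 2 ≤ n → Even n → Du κ b b' →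
  Ev D.P → Ev D.Q → (∀ t ∈ D.g, t.2.2.1 = 0 ∧ t.2.2.2 = 0) → (∀ d ∈ D.pl, Hz n d.1 d.2.1) →
  (∀ d ∈ D.wl, Hz n d.1 d.2.1) →
  0 ≤ (∑' a, gLL D b a) + (∑' a, gSS D b' a) + (∑' a, gLS κ D b b' a) + (∑' a, gL D b a) +
    (∑' a, gS κ D b' a) + (D.c0 n + bc D.ps)

/-- **LIV** (uses EVA, DUA).  The conditions for one vector (as LIN, Helper81_LPK/LIN.lean). -/
def LivStmt : Prop := ∀ (n : ℕ) (κ : ℝ) (D : DW) (μ ν : ℝ), CertW n κ D μ ν → ∀ b b' : Fin n → V n,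
  Du κ b b' → Mu μ b → Mu ν b' →
  (∀ a : Fin n → ℤ, a ≠ 0 → gLL D b (a, 0) + gLL D b (0, a) + gLL D b (a, a) + gLL D b (a, -a) +
    gLS κ D b b' (a, 0) + gL D b a ≤ 0) ∧
  (∀ a : Fin n → ℤ, a ≠ 0 → gSS D b' (a, 0) + gSS D b' (0, a) + gSS D b' (a, a) + gSS D b' (a, -a) +
    gLS κ D b b' (0, a) + gS κ D b' a ≤ 0)

/-- **PAV** (uses EVA, DUA).  The conditions for pairs (as PAI, Helper15_LPK/PAI.lean). -/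
def PavStmt : Prop := ∀ (n : ℕ) (κ : ℝ) (D : DW) (μ ν : ℝ), CertW n κ D μ ν → ∀ b b' : Fin n → V n,
  Du κ b b' → Mu μ b → Mu ν b' →
  (∀ a a' : Fin n → ℤ, a ≠ 0 → a' ≠ 0 → a ≠ a' → a ≠ -a' → gLL D b (a, a') + gLL D b (a', a) ≤ 0) ∧
  (∀ a a' : Fin n → ℤ, a ≠ 0 → a' ≠ 0 → a ≠ a' → a ≠ -a' → gSS D b' (a, a') + gSS D b' (a', a) ≤ 0) ∧
  (∀ a c : Fin n → ℤ, a ≠ 0 → c ≠ 0 → gLS κ D b b' (a, c) ≤ 0)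

/-- **CTV** (uses DUA, SPL, FSV, TOV, LIV, PAV).  The contradiction (as CTR, Helper11_LPK/CTR.lean). -/
def CtvStmt : Prop := ∀ (n : ℕ) (κ : ℝ) (D : DW) (μ ν : ℝ), CertW n κ D μ ν → ∀ b b' : Fin n → V n,
  Du κ b b' → Mu μ b → Mu ν b' → False

/-- **UPV** (uses RNK, BAS, SCL, CTV).  The bound for lattice packings (as UPB, Helper23_LPK/UPB.lean). -/
def UpvStmt : Prop := ∀ (n : ℕ) (κ : ℝ) (D : DW) (μ ν : ℝ), CertW n κ D μ ν →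
  (∀ b b' : Fin n → V n, Du κ b b' → Mu μ b → Mu ν b') → ∀ L : AddSubgroup (V n),
  (L : Set (V n)).Pairwise (fun x y => 2 ≤ dist x y) →
  Filter.limsup (fun R : ℝ => volume ((⋃ x ∈ (L : Set (V n)), Metric.ball x 1) ∩
    Metric.ball (0 : V n) R) / volume (Metric.ball (0 : V n) R)) atTop ≤
      ENNReal.ofReal ((μ / (8 * Real.pi)) ^ (n / 2) / κ) * volume (Metric.ball (0 : V n) 1)

end Pool.Agent.LPV
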